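import Pool.Agent.TH626.PR.Ideal

/-!
# A nonstandard closed ideal of `ℓ¹(ℚ⁺, ω)`, `ℚ⁺` the strictly positive rationals

The algebra of the question, without a unit: the functions live on the strictly positive rational
numbers.  (The frozen statements speak about the nonnegative rational numbers.)
-/

set_option autoImplicit false

open Filter Topology

namespace Pool.Agent.Results.MP_97b573_an.StrictlyPositiveRationals

/-- `ω` (its values at the rationals `q > 0`) is a radical weight. -/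
structure RadicalWeight (ω : ℚ → ℝ) : Prop where
  pos : ∀ q : ℚ, 0 < q → 0 < ω q
  submul : ∀ s t : ℚ, 0 < s → 0 < t → ω (s + t) ≤ ω s * ω t
  radical : ∀ t : ℚ, 0 < t →
    Tendsto (fun n : ℕ => ω ((n : ℚ) * t) ^ ((1 : ℝ) / (n : ℝ))) atTop (𝓝 0)

/-- `ℓ¹(ℚ⁺, ω)`: a function on `ℚ⁺` is extended by `0` to the rationals `q ≤ 0`. -/
def L1 (ω : ℚ → ℝ) : Set (ℚ → ℂ) :=
  {f | (∀ q : ℚ, q ≤ 0 → f q = 0) ∧ Summable (fun q : ℚ => ‖f q‖ * ω q)}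

/-- `I` is a closed ideal of `ℓ¹(ℚ⁺, ω)`. -/
structure ClosedIdeal (ω : ℚ → ℝ) (I : Set (ℚ → ℂ)) : Prop where
  subset : I ⊆ L1 ω
  zero : (0 : ℚ → ℂ) ∈ I
  add : ∀ f ∈ I, ∀ g ∈ I, f + g ∈ I
  smul : ∀ c : ℂ, ∀ f ∈ I, c • f ∈ I
  conv : ∀ a ∈ L1 ω, ∀ f ∈ I, (fun t : ℚ => ∑' s : ℚ, a s * f (t - s)) ∈ I
  closed : ∀ f ∈ L1 ω, (∀ ε : ℝ, 0 < ε → ∃ g ∈ I, ∑' q : ℚ, ‖f q - g q‖ * ω q < ε) → f ∈ I

/-- There is a radical weight `ω` on the strictly positive rationals for which `ℓ¹(ℚ⁺, ω)` has a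
nonzero closed ideal which is not standard. -/
theorem result : ∃ ω : ℚ → ℝ, RadicalWeight ω ∧ ∃ I : Set (ℚ → ℂ), ClosedIdeal ω I ∧
    I ≠ {(0 : ℚ → ℂ)} ∧ ∀ t : ℝ, 0 ≤ t →
      I ≠ {f | f ∈ L1 ω ∧ ∀ q : ℚ, (q : ℝ) < t → f q = 0} ∧
      I ≠ {f | f ∈ L1 ω ∧ ∀ q : ℚ, (q : ℝ) ≤ t → f q = 0} := by
  have hf0 := Pool.Agent.TH626.PR.f0_mem_I
  have hone := Pool.Agent.TH626.PR.f0_one
  have hdl := Pool.Agent.TH626.PR.dl_mem
  have hdn := Pool.Agent.TH626.PR.dl_not_mem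
  have hz : ∀ q : ℚ, q < 1 → Pool.Agent.TH626.PR.f0 q = 0 := by
    intro q hq
    refine Pool.Agent.TH626.PR.f0_not_mem ?_
    rintro ⟨j, rfl⟩
    exact absurd (Pool.Agent.TH626.PR.e_ge_one j) (not_le.2 hq)
  have hmem : ∀ f ∈ L1 Pool.Agent.TH626.PR.om, Pool.Agent.TH626.PR.Mem f := fun f hf =>
    ⟨fun q hq => hf.1 q hq.le, hf.2⟩
  have hfI : Pool.Agent.TH626.PR.f0 ∈
      Pool.Agent.TH626.PR.I ∩ L1 Pool.Agent.TH626.PR.om :=
    ⟨hf0, fun q hq => hz q (lt_of_le_of_lt hq one_pos), hf0.1.2⟩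
  have hdL : ∀ q : ℚ, q ≤ 0 → Pool.Agent.TH626.PR.dl q = 0 := by
    intro q hq
    unfold Pool.Agent.TH626.PR.dl
    rw [if_neg]
    rintro rfl
    norm_num at hq
  refine ⟨Pool.Agent.TH626.PR.om, ⟨fun q _ => Pool.Agent.TH626.PR.om_pos q,
    fun s t hs ht => Pool.Agent.TH626.PR.om_add_le s t hs.le ht.le,
    Pool.Agent.TH626.PR.om_radical⟩, Pool.Agent.TH626.PR.I ∩ L1 Pool.Agent.TH626.PR.om,
    ⟨fun f hf => hf.2, ⟨Pool.Agent.TH626.PR.I_zero, fun _ _ => rfl,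
      Pool.Agent.TH626.PR.I_zero.1.2⟩, ?_, ?_, ?_, ?_⟩, ?_, fun t _ => ⟨fun h => ?_, fun h => ?_⟩⟩
  · rintro f ⟨hf, hf'⟩ g ⟨hg, hg'⟩
    have h1 := Pool.Agent.TH626.PR.I_add hf hg
    refine ⟨h1, fun q hq => ?_, h1.1.2⟩
    rw [Pi.add_apply, hf'.1 q hq, hg'.1 q hq, add_zero]
  · rintro c f ⟨hf, hf'⟩
    have h1 := Pool.Agent.TH626.PR.I_smul c hf
    refine ⟨h1, fun q hq => ?_, h1.1.2⟩
    rw [Pi.smul_apply, hf'.1 q hq, smul_zero]
  · rintro a ha f ⟨hf, hf'⟩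
    have h1 := Pool.Agent.TH626.PR.I_conv (hmem a ha) hf
    refine ⟨h1, fun q hq => ?_, h1.1.2⟩
    have h2 : (fun s : ℚ => a s * f (q - s)) = fun _ => 0 := by
      funext s
      rcases le_or_gt s 0 with h3 | h3
      · rw [ha.1 s h3, zero_mul]
      · rw [hf'.1 (q - s) (by linarith), mul_zero]
    show ∑' s : ℚ, a s * f (q - s) = 0
    rw [h2, tsum_zero]
  · intro f hf h
    refine ⟨Pool.Agent.TH626.PR.I_closed (hmem f hf) fun ε hε => ?_, hf⟩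
    obtain ⟨g, hg, hlt⟩ := h ε hε
    exact ⟨g, hg.1, hlt⟩
  · intro h
    rw [h] at hfI
    have h1 : Pool.Agent.TH626.PR.f0 = 0 := hfI
    rw [h1] at hone
    exact zero_ne_one hone
  · apply hdn
    have hd : Pool.Agent.TH626.PR.dl ∈ Pool.Agent.TH626.PR.I ∩ L1 Pool.Agent.TH626.PR.om := by
      rw [h] at hfI ⊢
      refine ⟨⟨hdL, hdl.2⟩, fun q hq => ?_⟩
      unfold Pool.Agent.TH626.PR.dl
      rw [if_neg]
      rintro rfl
      rw [hfI.2 1 hq] at hone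
      exact zero_ne_one hone
    exact hd.1
  · apply hdn
    have hd : Pool.Agent.TH626.PR.dl ∈ Pool.Agent.TH626.PR.I ∩ L1 Pool.Agent.TH626.PR.om := by
      rw [h] at hfI ⊢
      refine ⟨⟨hdL, hdl.2⟩, fun q hq => ?_⟩
      unfold Pool.Agent.TH626.PR.dl
      rw [if_neg]
      rintro rfl
      rw [hfI.2 1 hq] at hone
      exact zero_ne_one hone
    exact hd.1

end Pool.Agent.Results.MP_97b573_an.StrictlyPositiveRationals
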